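import Mathlib
import Pool.Agent.H42.Hat.NearGame

set_option autoImplicit false

/-!
# Strategies of the two-player hat game that are close to linear

Stacks of height `h` are vectors over `ZMod 2` (`1` is black), and `x + 1` is the complementary
stack.  For a choice function `g` the pair `{g x, g (x + 1)}` is an edge on the positions.  If for
at least `5/8` of all stacks `x` this is a genuine edge and its indicator vector is `L x` for a
fixed linear map `L`, then the team wins with probability at most `45/128 = 0.3515625`.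

The recursive strategies on blocks of three positions, whose values tend to `7/20`, satisfy this
with `3/4` in place of `5/8`, and `3/4` is the largest value a linear map allows.
-/

namespace Pool.Agent.Results.MP_e6e31f_co.NearLinear

/-- If one of the two choice functions is `5/8`-close to linear, the team wins with probability at
most `45/128`. -/
theorem result :
    ∀ (h : ℕ) (f g : (Fin h → ZMod 2) → Fin h)
      (L : (Fin h → ZMod 2) →ₗ[ZMod 2] (Fin h → ZMod 2)),
      ((5 : ℝ) / 8 * 2 ^ h ≤ ((Finset.univ.filter (fun x : Fin h → ZMod 2 =>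
          g x ≠ g (x + 1) ∧ L x = Pi.single (g x) 1 + Pi.single (g (x + 1)) 1)).card : ℝ) ∨
        (5 : ℝ) / 8 * 2 ^ h ≤ ((Finset.univ.filter (fun y : Fin h → ZMod 2 =>
          f y ≠ f (y + 1) ∧ L y = Pi.single (f y) 1 + Pi.single (f (y + 1)) 1)).card : ℝ)) →
      ((Finset.univ.filter (fun p : (Fin h → ZMod 2) × (Fin h → ZMod 2) =>
          p.1 (f p.2) = 1 ∧ p.2 (g p.1) = 1)).card : ℝ) / (4 : ℝ) ^ h ≤ 45 / 128 := by
  classical
  intro h f g L hL
  rcases h with _ | h
  · exact (f (fun _ => 1)).elim0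
  have hcardV : Fintype.card (Pool.H42.Hat.V (h + 1)) = 2 ^ (h + 1) := by
    simp [Pool.H42.Hat.V, ZMod.card]
  -- height one: the hypothesis fails
  have hh : 2 ≤ h + 1 := by
    by_contra hcon
    have h0 : h = 0 := by omega
    subst h0
    have hs : ∀ k : (Fin 1 → ZMod 2) → Fin 1, (Finset.univ.filter (fun x : Fin 1 → ZMod 2 =>
          k x ≠ k (x + 1) ∧ L x = Pi.single (k x) 1 + Pi.single (k (x + 1)) 1)).card = 0 := by
      intro k
      rw [Finset.card_eq_zero, Finset.filter_eq_empty_iff]
      intro x _ hx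
      exact hx.1 (Subsingleton.elim _ _)
    rcases hL with hL | hL
    · have := hs g
      simp only [Nat.reduceAdd, zero_add] at hL
      rw [this] at hL
      norm_num at hL
    · have := hs f
      simp only [Nat.reduceAdd, zero_add] at hL
      rw [this] at hL
      norm_num at hL
  have main : ∀ F G : (Fin (h + 1) → ZMod 2) → Fin (h + 1),
      ((5 : ℝ) / 8 * 2 ^ (h + 1) ≤ ((Finset.univ.filter (fun x : Fin (h + 1) → ZMod 2 =>
          G x ≠ G (x + 1) ∧ L x = Pi.single (G x) 1 + Pi.single (G (x + 1)) 1)).card : ℝ)) →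
      128 * ∑ u, ∑ v, Pool.H42.Hat.wins F G u v ≤ 45 * (2 ^ (h + 1) * 2 ^ (h + 1)) := by
    intro F G hFG
    have h1 := Pool.H42.Hat.near_core hh F G (LinearMap.toMatrix' L) (by
      rw [hcardV]
      have h2 : (5 : ℝ) * 2 ^ (h + 1) ≤ 8 * ((Finset.univ.filter (fun x : Fin (h + 1) → ZMod 2 =>
          G x ≠ G (x + 1) ∧ L x = Pi.single (G x) 1 + Pi.single (G (x + 1)) 1)).card : ℝ) := by
        linarith
      have h3 : 5 * 2 ^ (h + 1) ≤ 8 * (Finset.univ.filter (fun x : Fin (h + 1) → ZMod 2 =>
          G x ≠ G (x + 1) ∧ L x = Pi.single (G x) 1 + Pi.single (G (x + 1)) 1)).card := by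
        exact_mod_cast h2
      refine h3.trans (le_of_eq ?_)
      congr 2
      ext u
      simp only [LinearMap.toMatrix'_mulVec]
      rfl)
    rw [hcardV] at h1
    exact h1
  have hw : 128 * ∑ u, ∑ v, Pool.H42.Hat.wins f g u v ≤ 45 * (2 ^ (h + 1) * 2 ^ (h + 1)) := by
    rcases hL with hL | hL
    · exact main f g hL
    · rw [Pool.H42.Hat.wins_swap]
      exact main g f hL
  have hcount : (Finset.univ.filter (fun p : (Fin (h + 1) → ZMod 2) × (Fin (h + 1) → ZMod 2) =>
          p.1 (f p.2) = 1 ∧ p.2 (g p.1) = 1)).card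
      = ∑ u, ∑ v, Pool.H42.Hat.wins f g u v := by
    rw [Finset.card_filter, Fintype.sum_prod_type]
    apply Finset.sum_congr rfl
    intro u _
    apply Finset.sum_congr rfl
    intro v _
    unfold Pool.H42.Hat.wins
    have h1 : ∀ a : ZMod 2, a = 1 ↔ a ≠ 0 := by decide
    simp only [h1]
  rw [div_le_div_iff₀ (by positivity) (by norm_num), hcount]
  have h5 : ((128 * ∑ u, ∑ v, Pool.H42.Hat.wins f g u v : ℕ) : ℝ)
      ≤ ((45 * (2 ^ (h + 1) * 2 ^ (h + 1)) : ℕ) : ℝ) := by exact_mod_cast hw
  have h6 : (4 : ℝ) ^ (h + 1) = 2 ^ (h + 1) * 2 ^ (h + 1) := by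
    rw [← mul_pow]
    norm_num
  rw [h6]
  push_cast at h5 ⊢
  linarith

end Pool.Agent.Results.MP_e6e31f_co.NearLinear
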