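import Mathlib
import Pool.Agent.H42.Hat.Three

set_option autoImplicit false

/-!
# One player names only three positions

If one player names only positions from a fixed set of at most three, while the other player is
unrestricted, the best winning probability in the two-player hat game is exactly `11/32`.
-/

namespace Pool.Agent.Results.MP_e6e31f_co.ThreePositions

/-- The bound `11/32` when `g` takes values in a set of at most three positions, at every height;
and it is attained (already at height three). -/
theorem result :
    (∀ (h : ℕ) (f g : (Fin h → Bool) → Fin h) (A : Finset (Fin h)), A.card ≤ 3 →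
      (∀ x, g x ∈ A) →
      ((Finset.univ.filter (fun p : (Fin h → Bool) × (Fin h → Bool) =>
          p.1 (f p.2) = true ∧ p.2 (g p.1) = true)).card : ℝ) / (4 : ℝ) ^ h ≤ 11 / 32) ∧
    ∃ f g : (Fin 3 → Bool) → Fin 3,
      ((Finset.univ.filter (fun p : (Fin 3 → Bool) × (Fin 3 → Bool) =>
          p.1 (f p.2) = true ∧ p.2 (g p.1) = true)).card : ℝ) / (4 : ℝ) ^ 3 = 11 / 32 := by
  classical
  refine ⟨?_, ?_⟩
  · intro h f g A hA hg
    have hne : A.Nonempty := ⟨_, hg (fun _ => true)⟩
    have hijk : ∃ i j k : Fin h, ∀ a ∈ A, a = i ∨ a = j ∨ a = k := by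
      have h1 : A.card = 1 ∨ A.card = 2 ∨ A.card = 3 := by
        have := hne.card_pos
        omega
      rcases h1 with h1 | h1 | h1
      · obtain ⟨a, ha⟩ := Finset.card_eq_one.mp h1
        refine ⟨a, a, a, ?_⟩
        intro b hb
        rw [ha] at hb
        simp only [Finset.mem_singleton] at hb
        exact Or.inl hb
      · obtain ⟨a, b, _, hab⟩ := Finset.card_eq_two.mp h1
        refine ⟨a, b, b, ?_⟩
        intro c hc
        rw [hab] at hc
        simp only [Finset.mem_insert, Finset.mem_singleton] at hc
        tauto
      · obtain ⟨a, b, c, _, _, _, habc⟩ := Finset.card_eq_three.mp h1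
        refine ⟨a, b, c, ?_⟩
        intro d hd
        rw [habc] at hd
        simpa only [Finset.mem_insert, Finset.mem_singleton] using hd
    obtain ⟨i, j, k, hijk⟩ := hijk
    have h2 := Pool.H42.Hat.three_core (fun v => f ((Pool.H42.Hat.BV h).symm v))
      (fun u => g ((Pool.H42.Hat.BV h).symm u)) i j k (fun u => hijk _ (hg _))
    rw [← Pool.H42.Hat.card_wins] at h2
    have hcardV : Fintype.card (Pool.H42.Hat.V h) = 2 ^ h := by
      simp [Pool.H42.Hat.V, ZMod.card]
    rw [hcardV] at h2
    have h3 : (32 : ℝ) * ((Finset.univ.filter (fun p : (Fin h → Bool) × (Fin h → Bool) =>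
          p.1 (f p.2) = true ∧ p.2 (g p.1) = true)).card : ℝ) ≤ 11 * ((2 : ℝ) ^ h * 2 ^ h) := by
      exact_mod_cast h2
    have h4 : (4 : ℝ) ^ h = 2 ^ h * 2 ^ h := by
      rw [← mul_pow]
      norm_num
    rw [div_le_div_iff₀ (by positivity) (by norm_num), h4]
    linarith
  · refine ⟨fun y => match y 2, y 1, y 0 with
      | false, false, _ => 0
      | false, true, _ => 1
      | true, false, false => 2
      | true, false, true => 0
      | true, true, false => 2
      | true, true, true => 0,
      fun x => match x 2, x 1, x 0 with
      | false, false, _ => 0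
      | false, true, false => 1
      | false, true, true => 0
      | true, false, _ => 2
      | true, true, false => 1
      | true, true, true => 0, ?_⟩
    have h1 : (Finset.univ.filter (fun p : (Fin 3 → Bool) × (Fin 3 → Bool) =>
          p.1 ((fun y : Fin 3 → Bool => (match y 2, y 1, y 0 with
      | false, false, _ => 0
      | false, true, _ => 1
      | true, false, false => 2
      | true, false, true => 0
      | true, true, false => 2
      | true, true, true => 0 : Fin 3)) p.2) = true ∧
          p.2 ((fun x : Fin 3 → Bool => (match x 2, x 1, x 0 with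
      | false, false, _ => 0
      | false, true, false => 1
      | false, true, true => 0
      | true, false, _ => 2
      | true, true, false => 1
      | true, true, true => 0 : Fin 3)) p.1) = true)).card = 22 := by
      decide
    have h2 := congrArg (fun n : ℕ => (n : ℝ) / (4 : ℝ) ^ 3) h1
    simp only at h2
    rw [show (11 / 32 : ℝ) = ((22 : ℕ) : ℝ) / (4 : ℝ) ^ 3 by norm_num]
    rw [← h2]

end Pool.Agent.Results.MP_e6e31f_co.ThreePositions
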