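import Mathlib
import Pool.Agent.H42.Hat.Infinite

set_option autoImplicit false

/-!
# The value of the two-player Levine hat game is at most 0.3579

The proof uses no computer search.

The infinite game is reduced to stacks of finite height: flipping the first `h` hats of both stacks
preserves the fair coin measure, so on the event that both players name a position below `h` it is
enough to count the winning flip patterns, which is the game of height `h` (`Hat/Infinite`).

For stacks of height `h` write `N = 2 ^ h`, read a stack as a vector of `F_2^h`.

1. Pairing every stack with its complement shows that the winning probability is at most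
   `1/4 + q/4`, where `q` is the probability that `x` separates the two positions
   `f y, f (complement of y)` and `y` separates `g x, g (complement of x)`.  So it suffices to bound
   from below the probability `ε` that the bits `⟨y v, u⟩` and `⟨v, e u⟩` disagree, where `e u` and
   `y v` are vectors of weight two (`Hat/Game`).
2. If `y` is arbitrary and `e u` has weight two, then `ε ≥ 1/8`, also on every subspace of `u`'s
   (`Hat/Q0`, `Hat/Sub`): four point argument over `v, v + s, v + t, v + s + t`.
3. If `e` agrees with a linear map on at least `5/8` of the points, then `ε ≥ 3/16` (`Hat/Near`).
4. Otherwise some cut `u ↦ ⟨s, e u⟩` is at distance at least `1/6` from all linear functions.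
   Averaging the subspace bounds over the kernels of the differences
   `y v + y (v + s) + z`, and using that the third moment of a convex combination of characters is
   not negative, gives `ε ≥ 171/1250` (`Hat/RealPart`, `Hat/Non`, `Hat/Non2`, `Hat/Non3`).
-/

namespace Pool.Agent.Results.MP_e6e31f_co.UpperBound

open MeasureTheory

/-- Two infinite stacks `x, y : ℕ → Bool` of independent fair hats, arbitrary measurable strategies
`f, g`: the team wins (`x (f y)` and `y (g x)` are both black) with probability at most `0.3579`. -/
theorem result :
    ∀ f g : (ℕ → Bool) → ℕ, Measurable f → Measurable g →
      ((Measure.infinitePi fun _ : ℕ => (PMF.uniformOfFintype Bool).toMeasure).prod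
        (Measure.infinitePi fun _ : ℕ => (PMF.uniformOfFintype Bool).toMeasure))
          {p : (ℕ → Bool) × (ℕ → Bool) | p.1 (f p.2) = true ∧ p.2 (g p.1) = true}
        ≤ ENNReal.ofReal (3579 / 10000) := by
  intro f g hf hg
  have h1 := Pool.H42.Hat.hat_inf hf hg
  have h2 : ENNReal.ofReal (3579 / 10000) = 3579 / 10000 := by
    rw [ENNReal.ofReal_div_of_pos (by norm_num)]
    norm_num
  rw [h2, ENNReal.le_div_iff_mul_le (Or.inl (by norm_num)) (Or.inl (by norm_num)), mul_comm]
  exact h1

end Pool.Agent.Results.MP_e6e31f_co.UpperBound
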